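import Pool.Agent.helper51.RMX.Spec

/-!
# Project rmx (MP_24e2e7_nt), row CHX
-/

set_option autoImplicit false

namespace Pool.Agent.RMX

open Pool.Agent.RB NumberField IsDedekindDomain Module
open scoped nonZeroDivisors Real Classical IsMulCommutative

theorem CHX_sep {G : Type} [CommGroup G] [Finite G] (y : MonoidAlgebra ℤ G)
    (h : ∀ ψ : G →* ℂˣ, evZ ψ y = 0) : y = 0 := by
  refine DET_zc_inj ?_
  rw [map_zero]
  exact MDT_inj _ fun ψ => by rw [DET_evC, h ψ]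

theorem CHX (hDEX : DEX_stmt) : CHX_stmt := by
  intro G _ _ c hcc X ε N hN hεX hεn U _ s M r β φ hsM hβ hφ hβE hinj hI W _ _ ι o f hι ho hf hW u d n z hz
  obtain ⟨x, e, hxM, hβx, he, hdet⟩ := hDEX G X ε N hN (fun ψ h => (hεX ψ h).2) hεn U s M r β hsM hβ hβE hinj hI
  obtain ⟨z1, hz1⟩ := hdet φ hφ
  have hanti : ∀ y ∈ ElX X, MonoidAlgebra.single c 1 * y + y = 0 := by
    intro y hy
    refine CHX_sep _ fun ψ => ?_
    rw [map_add, map_mul, DET_ev_single]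
    by_cases hψ : ψ ∈ X
    · rw [(hεX ψ hψ).1, Units.val_neg, Units.val_one]
      ring
    · rw [hy ψ hψ]
      ring
  have hsc : ∀ j, s c (x j) = -(x j) := by
    intro j
    have h0 : s c (x j) + x j = 0 := by
      refine hinj _ (M.add_mem (hsM c _ (hxM j)) (hxM j)) (fun i => ?_)
      rw [map_add, hβ]
      exact hanti _ (hβE i _ (hxM j))
    exact eq_neg_of_add_eq_zero_left h0
  have hXm : ∀ j, ι (x j) ∈ Wm c W := by
    intro j
    change (MonoidAlgebra.single c 1 : MonoidAlgebra ℚ G) • ι (x j) = -ι (x j)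
    rw [← hι, hsc, map_neg]
  set o' : Fin r → (Wm c W) →ₗ[MonoidAlgebra ℚ G] MonoidAlgebra ℚ G :=
    fun j => (o j).comp (Wm c W).subtype with ho'
  set f' : Fin r → (Wm c W) →ₗ[MonoidAlgebra ℚ G] MonoidAlgebra ℚ G :=
    fun j => (f j).comp (Wm c W).subtype with hf'
  have hR := RAT (MonoidAlgebra ℚ G) (Wm c W) r o' f' (fun j => ⟨ι (x j), hXm j⟩) (zq e)
    (by
      intro i j
      have h1 : o' i ⟨ι (x j), hXm j⟩ = o i (ι (x j)) := rfl
      rw [h1, ho, hβx]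
      split_ifs
      · rfl
      · exact map_zero _)
    (by
      intro w hw
      have h1 : (w : W) = 0 := hW w w.2 (fun j => hw j)
      exact Subtype.ext h1) u
  have hψ : ∀ ψ : G →* ℂˣ, (evZ ψ e) ^ r * evQ ψ (DT f' u) =
      Matrix.det (fun i j => evZ ψ (φ i (x j))) * evQ ψ (DT o' u) := by
    intro ψ
    have h1 := congrArg (evQ ψ) hR
    rw [map_mul, map_mul, map_pow, CH2_ev, RingHom.map_det] at h1
    rw [h1]
    congr 2
    ext i j
    have h2 : f' i ⟨ι (x j), hXm j⟩ = f i (ι (x j)) := rfl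
    have h3 : ((evQ ψ).mapMatrix (fun i j => f' i ⟨ι (x j), hXm j⟩)) i j =
      evQ ψ (f' i ⟨ι (x j), hXm j⟩) := rfl
    rw [h3, h2, hf, CH2_ev]
  have hprod : (∏ ψ ∈ X, (evZ ψ e) ^ r) * ∏ ψ ∈ X, evQ ψ (DT f' u) =
      (∏ ψ ∈ X, Matrix.det (fun i j => evZ ψ (φ i (x j)))) *
        ∏ ψ ∈ X, evQ ψ (DT o' u) := by
    rw [← Finset.prod_mul_distrib, ← Finset.prod_mul_distrib]
    exact Finset.prod_congr rfl fun ψ _ => hψ ψ
  refine ⟨z1 * z, ?_⟩
  set I : ℂ := ((M.map (AddMonoidHom.pi β)).relIndex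
    (AddSubgroup.pi Set.univ (fun _ : Fin r => ElX X)) : ℂ) with hIdef
  have hI0 : I ≠ 0 := by
    rw [hIdef]
    exact_mod_cast hI
  have hE0 : (∏ ψ ∈ X, (evZ ψ e) ^ r) ≠ 0 :=
    Finset.prod_ne_zero_iff.2 fun ψ h => pow_ne_zero _ (he ψ h)
  refine mul_left_cancel₀ (mul_ne_zero hE0 hI0) ?_
  push_cast
  calc (∏ ψ ∈ X, (evZ ψ e) ^ r) * I * ((d : ℂ) * ∏ ψ ∈ X, evQ ψ (DT f' u))
      = I * d * ((∏ ψ ∈ X, (evZ ψ e) ^ r) *
          ∏ ψ ∈ X, evQ ψ (DT f' u)) := by ring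
    _ = (I * ∏ ψ ∈ X, Matrix.det (fun i j => evZ ψ (φ i (x j)))) *
          ((d : ℂ) * ∏ ψ ∈ X, evQ ψ (DT o' u)) := by
        rw [hprod]
        ring
    _ = ((z1 : ℂ) * ∏ ψ ∈ X, (evZ ψ e) ^ r) *
          ((2 ^ n) ^ X.card * (z : ℂ) * I) := by
        rw [hz1, hz]
    _ = (∏ ψ ∈ X, (evZ ψ e) ^ r) * I *
          ((2 ^ n) ^ X.card * ((z1 : ℂ) * (z : ℂ))) := by ring

end Pool.Agent.RMX
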